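import Mathlib
import Pool.Agent.H29.MFuncDefs

set_option autoImplicit false

namespace Pool.Agent.Results.MP_2da57a_co.NotAtomic

open Pool.Agent.H29.MFunc

theorem up {U n : Type} {g : Set (n → Set U)} (hg : IsCM g) {L M : n → Set U} (h : L ∈ g)
    (hLM : ∀ i, L i ⊆ M i) : M ∈ g := by
  have := (hg.1 L M).mpr ⟨fun _ => false, by simpa using h⟩
  rwa [show (fun i => L i ∪ M i) = M from funext fun i => Set.union_eq_right.mpr (hLM i)] at this

theorem inter {U n : Type} {g : Set (n → Set U)} (hg : IsAtomCM g) {L M : n → Set U} (h : L ∈ g)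
    (h' : M ∈ g) : (fun i => L i ∩ M i) ∈ g := by
  have h1 : IsCM {N : n → Set U | (fun i => N i ∩ M i) ∈ g} := by
    refine ⟨fun L₀ L₁ => ?_, fun N ⟨i, hi⟩ => hg.1.2 _ ⟨i, by simp [hi]⟩⟩
    have := hg.1.1 (fun i => L₀ i ∩ M i) (fun i => L₁ i ∩ M i)
    simp only [Set.mem_ofPred_eq, Set.union_inter_distrib_right, this]
    refine exists_congr fun c => ?_
    rw [show (fun i => if c i = true then L₁ i ∩ M i else L₀ i ∩ M i) =
      (fun i => (if c i = true then L₁ i else L₀ i) ∩ M i) from funext fun i => by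
        split_ifs <;> rfl]
  have h2 := hg.2.2 _ h1 (Set.Nonempty.ne_empty ⟨M, by simpa using h'⟩)
    (fun N hN => up hg.1 hN fun i => Set.inter_subset_left)
  rw [← h2] at h
  exact h

/-- the example -/
def F : Set (ℕ → Set ℕ) := {L | ∃ k : ℕ, ∀ i, i + 1 ≤ k * (L i ∩ Set.Iic i).ncard}

theorem cm : IsCM F := by
  have fin : ∀ (A : Set ℕ) (i : ℕ), (A ∩ Set.Iic i).Finite := fun A i =>
    (Set.finite_Iic i).subset Set.inter_subset_right
  refine ⟨fun L₀ L₁ => ⟨?_, ?_⟩, ?_⟩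
  · rintro ⟨k, hk⟩
    refine ⟨fun i => decide ((L₀ i ∩ Set.Iic i).ncard ≤ (L₁ i ∩ Set.Iic i).ncard), 2 * k,
      fun i => ?_⟩
    have h1 := hk i
    have h2 := Set.ncard_union_le (L₀ i ∩ Set.Iic i) (L₁ i ∩ Set.Iic i)
    simp only [Set.union_inter_distrib_right, decide_eq_true_eq] at h1 ⊢
    split_ifs with h <;> nlinarith
  · rintro ⟨c, k, hk⟩
    refine ⟨k, fun i => (hk i).trans (Nat.mul_le_mul_left _ (Set.ncard_le_ncard ?_ (fin _ _)))⟩
    refine Set.inter_subset_inter_left _ ?_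
    dsimp only
    split_ifs
    · exact Set.subset_union_right
    · exact Set.subset_union_left
  · rintro L ⟨i, hi⟩ ⟨k, hk⟩
    have := hk i
    simp [hi] at this

theorem small {g : Set (ℕ → Set ℕ)} (hg : IsCM g) (i m : ℕ) :
    ∀ L ∈ g, (L i ∩ Set.Iic i).ncard = m → ∃ M ∈ g, (M i ∩ Set.Iic i).ncard ≤ 1 := by
  induction m using Nat.strong_induction_on with
  | _ m ih =>
    intro L hL hm
    by_cases h : m ≤ 1
    · exact ⟨L, hL, by omega⟩
    have fin : (L i ∩ Set.Iic i).Finite := (Set.finite_Iic i).subset Set.inter_subset_right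
    obtain ⟨x, hx⟩ : (L i ∩ Set.Iic i).Nonempty := (Set.ncard_pos fin).mp (by omega)
    obtain ⟨c, hc⟩ := (hg.1 (fun j => L j \ {x}) (fun _ => {x})).mp
      (up hg hL fun j y hy => by by_cases h : y = x <;> simp [h, hy])
    by_cases h1 : c i = true
    · refine ⟨_, hc, ?_⟩
      simp only [h1, if_true]
      exact (Set.ncard_le_ncard Set.inter_subset_left).trans (by simp)
    · refine ih (m - 1) (by omega) _ hc ?_
      simp only [h1]
      rw [← hm, ← Set.ncard_sdiff_singleton_of_mem hx]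
      congr 1
      ext y
      simp only [Bool.false_eq_true, if_false, Set.mem_inter_iff, Set.mem_sdiff]
      tauto

theorem noAtom : ¬ ∃ a, IsAtomCM a ∧ a ⊆ F := by
  rintro ⟨g, hg, hF⟩
  obtain ⟨L, hL⟩ := Set.nonempty_iff_ne_empty.mpr hg.2.1
  choose M h1 h2 using fun i => small hg.1 i _ L hL rfl
  obtain ⟨c, hc⟩ := (hg.1.1 (fun i => M i i) (fun i => (M i i)ᶜ)).mp
    (up hg.1 hL fun j y _ => by simp)
  have h3 : ∀ i, ¬ c i = true := fun i hi =>
    hg.1.2 _ ⟨i, by simp [hi]⟩ (inter hg hc (h1 i))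
  obtain ⟨k, hk⟩ := hF hc
  have h4 := hk k
  have h5 := h2 k
  simp only [h3 k, Bool.false_eq_true, if_false] at h4
  nlinarith

theorem result : ∃ (U n : Type) (f : Set (n → Set U)), IsCM f ∧ f ≠ ∅ ∧
    (¬ ∃ a, IsAtomCM a ∧ a ⊆ f) ∧ ¬ IsLubCM {a | IsAtomCM a ∧ a ⊆ f} f := by
  have hne : F.Nonempty := ⟨fun _ => Set.univ, 1, fun i => by
    rw [Set.univ_inter, ← Finset.coe_Iic, Set.ncard_coe_finset]; simp⟩
  refine ⟨ℕ, ℕ, F, cm, hne.ne_empty, noAtom, fun h => ?_⟩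
  obtain ⟨L, hL⟩ := hne
  exact h.2 ∅ ⟨by simp, by simp⟩ (fun a ha => absurd ⟨a, ha⟩ noAtom) hL

end Pool.Agent.Results.MP_2da57a_co.NotAtomic
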